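import Pool.Agent.H55.PM.Targets

/-!
Module PB of the board pm_modules (MP_9198c9_nt): upper bound for the number of partitions.
-/

set_option autoImplicit false

open Finset

namespace Pool.Agent.H14.PM

open Pool.Agent.H55.PM

theorem cnt_eq (A : Set ℕ) [DecidablePred (· ∈ A)] (n : ℕ) :
    cnt A n = ((Icc 1 n).filter (· ∈ A)).card := by
  unfold cnt
  rw [← Set.ncard_coe_finset]
  congr 1
  ext a
  simp only [Set.mem_inter_iff, Set.mem_Icc, coe_filter, mem_Icc, Set.mem_ofPred_eq]
  tauto

theorem count_le {n : ℕ} (p : Nat.Partition n) (a : ℕ) : p.parts.count a ≤ n := by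
  have h1 : p.parts.count a ≤ Multiset.card p.parts := Multiset.count_le_card a p.parts
  have h2 : Multiset.card p.parts ≤ p.parts.sum := by
    have : Multiset.card p.parts • 1 ≤ p.parts.sum :=
      Multiset.card_nsmul_le_sum fun x hx => p.parts_pos hx
    simpa using this
  rw [p.parts_sum] at h2
  exact h1.trans h2

theorem part_le {n : ℕ} (p : Nat.Partition n) {a : ℕ} (ha : a ∈ p.parts) : a ≤ n := by
  have := Multiset.le_sum_of_mem ha
  rwa [p.parts_sum] at this

/-- PB. Upper bound. -/
theorem pb : T_PB := by
  classical
  intro A M n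
  rw [cnt_eq A n, cnt_eq M n]
  set FA : Finset ℕ := (Icc 1 n).filter (· ∈ A) with hFA
  set FM : Finset ℕ := insert 0 ((Icc 1 n).filter (· ∈ M)) with hFM
  have hcard : FM.card = 1 + ((Icc 1 n).filter (· ∈ M)).card := by
    rw [hFM, Finset.card_insert_of_notMem (by simp), add_comm]
  have hle : pc A M n ≤ (Fintype.piFinset (fun _ : FA => FM)).card := by
    unfold pc
    rw [← Set.ncard_coe_finset]
    refine Set.ncard_le_ncard_of_injOn (fun (p : Nat.Partition n) (a : FA) => p.parts.count a.1)
      ?_ ?_ (Finset.finite_toSet _)
    · intro p hp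
      rw [Finset.mem_coe, Fintype.mem_piFinset]
      intro a
      rw [hFM, mem_insert, mem_filter, mem_Icc]
      by_cases h0 : p.parts.count a.1 = 0
      · exact Or.inl h0
      · right
        have hmem : a.1 ∈ p.parts := by
          rw [← Multiset.count_pos]
          omega
        exact ⟨⟨by omega, count_le p _⟩, (hp _ hmem).2⟩
    · intro p hp q hq hpq
      apply Nat.Partition.ext
      ext a
      by_cases ha : a ∈ FA
      · exact congrFun hpq ⟨a, ha⟩
      · have key : ∀ r ∈ PS A M n, Multiset.count a r.parts = 0 := by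
          intro r hr
          rw [Multiset.count_eq_zero]
          intro har
          apply ha
          rw [hFA, mem_filter, mem_Icc]
          exact ⟨⟨r.parts_pos har, part_le r har⟩, (hr a har).1⟩
        rw [key p hp, key q hq]
  refine hle.trans (le_of_eq ?_)
  rw [Fintype.card_piFinset, Finset.prod_const, hcard, Finset.card_univ, Fintype.card_coe]

end Pool.Agent.H14.PM
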