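import Pool.Agent.H55.PM.Targets

/-!
Module PP of the board pm_modules (MP_9198c9_nt): a representation gives a partition.
-/

set_option autoImplicit false

open Finset

namespace Pool.Agent.H14.PM

open Pool.Agent.H55.PM

/-- PP. A representation gives a partition. -/
theorem pp : T_PP := by
  intro A M n S m hS hm hn
  set P : Multiset ℕ := ∑ a ∈ S, Multiset.replicate (m a) a with hP
  have hcount : ∀ b, P.count b = if b ∈ S then m b else 0 := by
    intro b
    rw [hP, Multiset.count_sum']
    simp only [Multiset.count_replicate]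
    rw [Finset.sum_ite_eq' S b m]
  have hsum : P.sum = n := by
    have h1 : P.sum = ∑ a ∈ S, (Multiset.replicate (m a) a).sum :=
      map_sum Multiset.sumAddMonoidHom _ _
    rw [h1, ← hn]
    refine Finset.sum_congr rfl fun a _ => ?_
    rw [Multiset.sum_replicate, smul_eq_mul]
  have hmem : ∀ b ∈ P, b ∈ S ∧ m b ≠ 0 := by
    intro b hb
    have h1 : 0 < P.count b := Multiset.count_pos.2 hb
    rw [hcount] at h1
    by_cases hbS : b ∈ S
    · rw [if_pos hbS] at h1
      exact ⟨hbS, by omega⟩
    · rw [if_neg hbS] at h1
      omega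
  let p : Nat.Partition n :=
    { parts := P
      parts_pos := fun {b} hb => (hS b (hmem b hb).1).1
      parts_sum := hsum }
  have hp : p ∈ PS A M n := by
    intro b hb
    obtain ⟨h1, h2⟩ := hmem b hb
    refine ⟨(hS b h1).2, ?_⟩
    have h3 : p.parts.count b = m b := by
      change P.count b = m b
      rw [hcount, if_pos h1]
    rw [h3]
    rcases hm b h1 with h4 | h4
    · exact absurd h4 h2
    · exact h4
  unfold pc
  rw [Nat.one_le_iff_ne_zero, ← Nat.pos_iff_ne_zero, Set.ncard_pos (Set.toFinite _)]
  exact ⟨p, hp⟩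

end Pool.Agent.H14.PM
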